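import Pool.Agent.K3h75.ND.Stm

/-!
Brick PAR of project ND of helper75 (MP_6a3dac_ag): parameters at a nondegenerate critical point.
The lemmas `exists_mul`, `pi_notMem` are adapted from Pool/Agent/K3h66/TO/Ind.lean.
-/

set_option autoImplicit false

namespace Pool.Agent.K3h17.ND

open Pool.Agent.K3h75.ND Pool.Agent.W418.LU2 MvPolynomial IsLocalRing

lemma exists_mul {O : Type} [CommRing O] [IsDomain O] [IsDedekindDomain O] (P : Ideal O)
    (π : O) (h1 : π ∈ P) (h2 : π ∉ P ^ 2) :
    ∃ s, s ∉ P ∧ ∀ x ∈ P, s * x ∈ Ideal.span {π} := by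
  have h3 : P ∣ Ideal.span {π} := by
    rw [Ideal.dvd_iff_le, Ideal.span_singleton_le_iff_mem]; exact h1
  obtain ⟨J, hJ⟩ := h3
  have h4 : ¬ J ≤ P := by
    intro h
    apply h2
    have : Ideal.span {π} ≤ P ^ 2 := by
      rw [hJ, pow_two]; exact Ideal.mul_mono_right h
    exact this (Ideal.mem_span_singleton_self π)
  obtain ⟨s, hs, hsP⟩ := SetLike.not_le_iff_exists.1 h4
  refine ⟨s, hsP, fun x hx => ?_⟩
  rw [hJ, mul_comm s x]
  exact Ideal.mul_mem_mul hx hs

lemma pi_notMem {O : Type} [CommRing O] [IsDomain O] [IsDedekindDomain O] {σ : Type} [Fintype σ]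
    (Q : Ideal (MvPolynomial (σ) O)) [Q.IsPrime] (P : Ideal O) (hP : P.IsMaximal)
    (hQ : Q.comap (C : O →+* MvPolynomial (σ) O) = P) (π : O) (h1 : π ∈ P)
    (h2 : π ∉ P ^ 2) :
    algebraMap (MvPolynomial (σ) O) (Localization.AtPrime Q) (C π) ∉
      maximalIdeal (Localization.AtPrime Q) ^ 2 := by
  classical
  have hfield : IsField (O ⧸ P) := (Ideal.Quotient.maximal_ideal_iff_isField_quotient P).1 hP
  have hdomk : IsDomain (O ⧸ P) := hfield.isDomain
  have hpid : IsPrincipalIdealRing (O ⧸ P) := hfield.isPrincipalIdealRing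
  let φ : MvPolynomial (σ) O →+* MvPolynomial (σ) (O ⧸ P) :=
    MvPolynomial.map (Ideal.Quotient.mk P)
  have hφs : Function.Surjective φ := MvPolynomial.map_surjective _ Ideal.Quotient.mk_surjective
  have hker : RingHom.ker φ = P.map (C : O →+* MvPolynomial (σ) O) := by
    rw [MvPolynomial.ker_map, Ideal.mk_ker]
  have hkQ : RingHom.ker φ ≤ Q := by
    rw [hker, Ideal.map_le_iff_le_comap, hQ]
  let Q' : Ideal (MvPolynomial (σ) (O ⧸ P)) := Q.map φ
  have hQ'p : Q'.IsPrime := Ideal.map_isPrime_of_surjective hφs hkQ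
  have hQQ' : Q = Q'.comap φ := by
    rw [Ideal.comap_map_of_surjective φ hφs, ← RingHom.ker_eq_comap_bot]
    exact (sup_eq_left.2 hkQ).symm
  let Φ : Localization.AtPrime Q →+* Localization.AtPrime Q' := Localization.localRingHom Q Q' φ hQQ'
  have hreg : IsRegularLocalRing (Localization.AtPrime Q') := inferInstance
  have hregB : IsRegularLocalRing (Localization.AtPrime Q) := inferInstance
  have hΦs : Function.Surjective Φ := by
    intro y
    obtain ⟨b, s, rfl⟩ := IsLocalization.exists_mk'_eq Q'.primeCompl y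
    obtain ⟨a, rfl⟩ := hφs b
    obtain ⟨t, ht⟩ := hφs s
    have htQ : t ∈ Q.primeCompl := by
      intro h
      apply s.2
      rw [← ht]
      exact Ideal.mem_map_of_mem φ h
    refine ⟨IsLocalization.mk' _ a ⟨t, htQ⟩, ?_⟩
    change Localization.localRingHom Q Q' φ hQQ' _ = _
    rw [Localization.localRingHom_mk']
    congr 1
    exact Subtype.ext ht
  have hπ0 : π ≠ 0 := by
    rintro rfl
    exact h2 (Ideal.zero_mem _)
  let π' : Localization.AtPrime Q := algebraMap (MvPolynomial (σ) O) _ (C π)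
  have hπ'0 : π' ≠ 0 := by
    intro h
    have h3 := (IsLocalization.to_map_eq_zero_iff (Localization.AtPrime Q)
      (M := Q.primeCompl) Q.primeCompl_le_nonZeroDivisors).1 h
    rw [MvPolynomial.C_eq_zero] at h3
    exact hπ0 h3
  have hdom : IsDomain (Localization.AtPrime Q) :=
    IsLocalization.isDomain_of_le_nonZeroDivisors _ Q.primeCompl_le_nonZeroDivisors
  have hπ'k : Φ π' = 0 := by
    change Localization.localRingHom Q Q' φ hQQ' _ = _
    rw [Localization.localRingHom_to_map]
    have h3 : φ (C π) = 0 := by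
      have : C π ∈ RingHom.ker φ := by
        rw [hker]
        exact Ideal.mem_map_of_mem _ h1
      exact this
    rw [h3, map_zero]
  have hdim : ringKrullDim (Localization.AtPrime Q') + 1 ≤ ringKrullDim (Localization.AtPrime Q) :=
    ringKrullDim_succ_le_of_surjective (R := Localization.AtPrime Q)
      (S := Localization.AtPrime Q') Φ hΦs (r := π') (mem_nonZeroDivisors_of_ne_zero hπ'0) hπ'k
  -- the kernel
  obtain ⟨s, hsP, hs⟩ := exists_mul P π h1 h2
  have hsQ : C s ∈ Q.primeCompl := by
    intro h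
    apply hsP
    rw [← hQ]
    exact h
  have hkerΦ : RingHom.ker Φ ≤ Ideal.span {π'} := by
    intro x hx
    obtain ⟨a, t, rfl⟩ := IsLocalization.exists_mk'_eq Q.primeCompl x
    have h3 : Localization.localRingHom Q Q' φ hQQ' (IsLocalization.mk' _ a t) = 0 := hx
    rw [Localization.localRingHom_mk', IsLocalization.mk'_eq_zero_iff] at h3
    obtain ⟨m, hm⟩ := h3
    have h4 : φ a = 0 := by
      rcases mul_eq_zero.1 hm with h5 | h5
      · exfalso
        apply m.2
        rw [h5]
        exact Ideal.zero_mem _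
      · exact h5
    have h5 : a ∈ P.map (C : O →+* MvPolynomial (σ) O) := by
      rw [← hker]
      exact h4
    have h6 : P.map (C : O →+* MvPolynomial (σ) O) ≤
        (Ideal.span {π'}).comap (algebraMap _ (Localization.AtPrime Q)) := by
      rw [Ideal.map_le_iff_le_comap]
      intro y hy
      rw [Ideal.mem_comap, Ideal.mem_comap]
      obtain ⟨z, hz⟩ := Ideal.mem_span_singleton'.1 (hs y hy)
      have h7 : IsUnit (algebraMap (MvPolynomial (σ) O) (Localization.AtPrime Q) (C s)) :=
        IsLocalization.map_units _ (⟨C s, hsQ⟩ : Q.primeCompl)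
      rw [← Ideal.unit_mul_mem_iff_mem _ h7, ← map_mul, ← map_mul, ← hz, map_mul, map_mul]
      exact Ideal.mul_mem_left _ _ (Ideal.mem_span_singleton_self _)
    have h7 := h6 h5
    rw [Ideal.mem_comap] at h7
    rw [← Ideal.unit_mul_mem_iff_mem _ (IsLocalization.map_units (Localization.AtPrime Q) t),
      IsLocalization.mk'_spec']
    exact h7
  -- generators
  have hfg : (maximalIdeal (Localization.AtPrime Q')).FG := (isNoetherianRing_iff_ideal_fg _).1
    inferInstance _
  have hfin := Submodule.FG.finite_generators hfg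
  have hnc := Submodule.FG.generators_ncard hfg
  have hspan := Submodule.span_generators (maximalIdeal (Localization.AtPrime Q'))
  set G := Submodule.generators (maximalIdeal (Localization.AtPrime Q')) with hG
  have : Fintype G := hfin.fintype
  choose ℓ hℓ using hΦs
  let w : Option G → Localization.AtPrime Q := fun o => o.elim π' (fun g => ℓ g)
  have hmax : (maximalIdeal (Localization.AtPrime Q')).comap Φ =
      maximalIdeal (Localization.AtPrime Q) := by
    have : IsLocalHom Φ := Localization.isLocalHom_localRingHom Q Q' φ hQQ'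
    exact IsLocalRing.maximalIdeal_comap Φ
  have hwspan : Ideal.span (Set.range w) = maximalIdeal (Localization.AtPrime Q) := by
    apply le_antisymm
    · rw [Ideal.span_le]
      rintro _ ⟨o, rfl⟩
      rw [SetLike.mem_coe, ← hmax, Ideal.mem_comap]
      rcases o with _ | g
      · change Φ π' ∈ _
        rw [hπ'k]
        exact Ideal.zero_mem _
      · change Φ (ℓ g) ∈ _
        rw [hℓ]
        rw [← hspan]
        exact Submodule.subset_span g.2
    · intro x hx
      rw [← hmax, Ideal.mem_comap, ← hspan] at hx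
      have h3 : Submodule.span (Localization.AtPrime Q') G =
          (Ideal.span (Set.range fun g : G => ℓ g)).map Φ := by
        rw [Ideal.map_span, ← Set.range_comp]
        have : (Φ ∘ fun g : G => ℓ g) = fun g : G => (g : Localization.AtPrime Q') := by
          ext g
          exact hℓ g
        rw [this, Subtype.range_coe]
      rw [h3] at hx
      obtain ⟨y, hy, hyx⟩ := (Ideal.mem_map_iff_of_surjective Φ (fun b => ⟨ℓ b, hℓ b⟩)).1 hx
      have h4 : x - y ∈ RingHom.ker Φ := by
        rw [RingHom.mem_ker, map_sub, hyx, sub_self]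
      have h5 : x - y ∈ Ideal.span (Set.range w) := by
        have h6 : Ideal.span {π'} ≤ Ideal.span (Set.range w) := by
          rw [Ideal.span_singleton_le_iff_mem]
          exact Ideal.subset_span ⟨none, rfl⟩
        exact h6 (hkerΦ h4)
      have h6 : y ∈ Ideal.span (Set.range w) := by
        have h7 : Ideal.span (Set.range fun g : G => ℓ g) ≤ Ideal.span (Set.range w) := by
          apply Ideal.span_mono
          rintro _ ⟨g, rfl⟩
          exact ⟨some g, rfl⟩
        exact h7 hy
      have h7 := Ideal.add_mem _ h5 h6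
      rwa [sub_add_cancel] at h7
  have hcard : ((Fintype.card (Option G) : ℕ) : WithBot ℕ∞) ≤
      ringKrullDim (Localization.AtPrime Q) := by
    refine le_trans (le_of_eq ?_) hdim
    rw [Fintype.card_option, ← hreg.spanFinrank_maximalIdeal, ← hnc, Set.ncard_eq_toFinset_card']
    simp
  have hInd := ind_of_span hwspan hcard
  intro hcon
  have h8 := hInd.2 (fun o => o.elim 1 (fun _ => 0)) (by
    rw [Fintype.sum_option]
    simp only [Option.elim_none, Option.elim_some, one_mul, zero_mul, Finset.sum_const_zero,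
      add_zero]
    exact hcon) none
  exact (Ideal.ne_top_iff_one _).1 (maximalIdeal.isMaximal _).ne_top h8


lemma pderiv_mem {O σ : Type} [CommRing O] (Q : Ideal (MvPolynomial σ O))
    (i : σ) (x : MvPolynomial σ O) (hx : x ∈ Q ^ 2) : pderiv i x ∈ Q := by
  rw [pow_two] at hx
  refine Submodule.mul_induction_on hx ?_ ?_
  · intro a ha b hb
    rw [Derivation.leibniz]
    exact Ideal.add_mem _ (by rw [smul_eq_mul]; exact Ideal.mul_mem_right _ _ ha)
      (by rw [smul_eq_mul]; exact Ideal.mul_mem_right _ _ hb)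
  · intro a b ha hb
    rw [map_add]
    exact Ideal.add_mem _ ha hb

/-- Cramer's rule modulo a prime ideal. -/
lemma det_mul_mem {W σ : Type} [CommRing W] [Fintype σ] [DecidableEq σ] (Q : Ideal W)
    (M : Matrix σ σ W) (a : σ → W) (h : ∀ i, ∑ j, M i j * a j ∈ Q) (j : σ) :
    M.det * a j ∈ Q := by
  have h1 : (M.adjugate.mulVec (M.mulVec a)) j = M.det * a j := by
    rw [Matrix.mulVec_mulVec, Matrix.adjugate_mul, Matrix.smul_mulVec, Matrix.one_mulVec]
    rfl
  rw [← h1]
  refine Ideal.sum_mem _ fun i _ => Ideal.mul_mem_left _ _ ?_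
  exact h i

section main

variable {R σ : Type} [CommRing R] [IsDomain R] [IsDiscreteValuationRing R]
  [Fintype σ] [DecidableEq σ] {π : R} {f : MvPolynomial σ R} {Q : Ideal (MvPolynomial σ R)}
  [hQp : Q.IsPrime]

lemma comap_eq (hπ : Irreducible π) (hQ : (C π : MvPolynomial σ R) ∈ Q) :
    Q.comap (C : R →+* MvPolynomial σ R) = maximalIdeal R := by
  have h1 : maximalIdeal R ≤ Q.comap (C : R →+* MvPolynomial σ R) := by
    rw [hπ.maximalIdeal_eq, Ideal.span_singleton_le_iff_mem]
    exact hQ
  exact ((maximalIdeal.isMaximal R).eq_of_le (Ideal.IsPrime.ne_top inferInstance) h1).symm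

lemma pi_sq (hπ : Irreducible π) : π ∉ maximalIdeal R ^ 2 := by
  intro h
  rw [hπ.maximalIdeal_eq, Ideal.span_singleton_pow, Ideal.mem_span_singleton] at h
  obtain ⟨c, hc⟩ := h
  apply hπ.not_isUnit
  have h0 : π ≠ 0 := hπ.ne_zero
  have h2 : π * 1 = π * (π * c) := by
    rw [mul_one]
    calc π = π ^ 2 * c := hc
      _ = π * (π * c) := by ring
  exact IsUnit.of_mul_eq_one c (mul_left_cancel₀ h0 h2).symm

lemma jac (hdet : (hess f).det ∉ Q) (hpd : ∀ j, pderiv j f ∈ Q) (a : σ → MvPolynomial σ R)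
    (a₀ : MvPolynomial σ R) (hC : (C π : MvPolynomial σ R) ∈ Q)
    (h : a₀ * C π + ∑ j, a j * pderiv j f ∈ Q ^ 2) (j : σ) : a j ∈ Q := by
  have h1 : ∀ i, ∑ j, hess f i j * a j ∈ Q := by
    intro i
    have h2 := pderiv_mem Q i _ h
    rw [map_add, map_sum] at h2
    have h3 : pderiv i (a₀ * C π) ∈ Q := by
      rw [Derivation.leibniz, pderiv_C, smul_zero, zero_add, smul_eq_mul]
      exact Ideal.mul_mem_right _ _ hC
    have h4 := (Ideal.add_mem_iff_right _ h3).1 h2
    have h5 : ∑ j, hess f i j * a j = ∑ j, pderiv i (a j * pderiv j f) -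
        ∑ j, pderiv j f * pderiv i (a j) := by
      rw [← Finset.sum_sub_distrib]
      refine Finset.sum_congr rfl fun j _ => ?_
      rw [Derivation.leibniz, smul_eq_mul, smul_eq_mul]
      change pderiv i (pderiv j f) * a j = _
      ring
    rw [h5]
    exact Ideal.sub_mem _ h4 (Ideal.sum_mem _ fun j _ => Ideal.mul_mem_right _ _ (hpd j))
  exact (hQp.mem_or_mem (det_mul_mem Q _ a h1 j)).resolve_left hdet

lemma third (hπ : Irreducible π) (hC : (C π : MvPolynomial σ R) ∈ Q)
    (hpd : ∀ j, pderiv j f ∈ Q) (hdet : (hess f).det ∉ Q) (a : σ → MvPolynomial σ R)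
    (a₀ : MvPolynomial σ R) (h : a₀ * C π + ∑ j, a j * pderiv j f ∈ Q ^ 2) :
    a₀ ∈ Q ∧ ∀ j, a j ∈ Q := by
  have h1 := jac hdet hpd a a₀ hC h
  refine ⟨?_, h1⟩
  have h2 : a₀ * C π ∈ Q ^ 2 := by
    refine (Ideal.add_mem_iff_left _ (Ideal.sum_mem _ fun j _ => ?_)).1 h
    rw [pow_two]
    exact Ideal.mul_mem_mul (h1 j) (hpd j)
  by_contra hcon
  apply pi_notMem Q (maximalIdeal R) (maximalIdeal.isMaximal R) (comap_eq hπ hC) π
    ((mem_maximalIdeal _).2 hπ.not_isUnit) (pi_sq hπ)
  have h3 : IsUnit (algebraMap (MvPolynomial σ R) (Localization.AtPrime Q) a₀) :=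
    IsLocalization.map_units _ (⟨a₀, hcon⟩ : Q.primeCompl)
  rw [← Ideal.unit_mul_mem_iff_mem _ h3, ← map_mul,
    ← Localization.AtPrime.map_eq_maximalIdeal, ← Ideal.map_pow]
  exact Ideal.mem_map_of_mem _ h2

/-- The family `π`, `∂ f`. -/
noncomputable def fam (π : R) (f : MvPolynomial σ R) : Option σ → MvPolynomial σ R :=
  fun o => o.elim (C π) fun j => pderiv j f

lemma range_fam : Set.range (fam π f) = insert (C π) (Set.range fun j => pderiv j f) := by
  ext x
  constructor
  · rintro ⟨o, rfl⟩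
    rcases o with _ | j
    · exact Or.inl rfl
    · exact Or.inr ⟨j, rfl⟩
  · rintro (rfl | ⟨j, rfl⟩)
    · exact ⟨none, rfl⟩
    · exact ⟨some j, rfl⟩

lemma ind (hπ : Irreducible π) (hC : (C π : MvPolynomial σ R) ∈ Q)
    (hpd : ∀ j, pderiv j f ∈ Q) (hdet : (hess f).det ∉ Q) :
    Ind (fun o : Option σ => algebraMap (MvPolynomial σ R) (Localization.AtPrime Q)
      (fam π f o)) := by
  have hmem : ∀ x, algebraMap (MvPolynomial σ R) (Localization.AtPrime Q) x ∈
      maximalIdeal (Localization.AtPrime Q) ↔ x ∈ Q := fun x =>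
    IsLocalization.AtPrime.to_map_mem_maximal_iff (Localization.AtPrime Q) Q x
  have hw : ∀ o, fam π f o ∈ Q := by
    rintro (_ | j)
    · exact hC
    · exact hpd j
  refine ⟨fun o => (hmem _).2 (hw o), ?_⟩
  intro c hc
  obtain ⟨s, hs⟩ := IsLocalization.exist_integer_multiples_of_finite Q.primeCompl c
  choose c' hc' using hs
  have h3 : algebraMap (MvPolynomial σ R) (Localization.AtPrime Q) (∑ a, c' a * fam π f a) ∈
      maximalIdeal (Localization.AtPrime Q) ^ 2 := by
    rw [map_sum]
    have h4 : ∑ a, algebraMap (MvPolynomial σ R) (Localization.AtPrime Q) (c' a * fam π f a) =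
        algebraMap (MvPolynomial σ R) (Localization.AtPrime Q) s *
          ∑ a, c a * algebraMap (MvPolynomial σ R) (Localization.AtPrime Q) (fam π f a) := by
      rw [Finset.mul_sum]
      refine Finset.sum_congr rfl fun a _ => ?_
      rw [map_mul, hc', Algebra.smul_def, mul_assoc]
    rw [h4]
    exact Ideal.mul_mem_left _ _ hc
  have h4 : maximalIdeal (Localization.AtPrime Q) ^ 2 =
      (Q ^ 2).map (algebraMap (MvPolynomial σ R) (Localization.AtPrime Q)) := by
    rw [Ideal.map_pow, Localization.AtPrime.map_eq_maximalIdeal]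
  rw [h4, IsLocalization.algebraMap_mem_map_algebraMap_iff Q.primeCompl] at h3
  obtain ⟨m, hm, h5⟩ := h3
  have h6 : (m * c' none) * C π + ∑ j, (m * c' (some j)) * pderiv j f ∈ Q ^ 2 := by
    rw [Fintype.sum_option, mul_add, Finset.mul_sum] at h5
    convert h5 using 2
    · change _ = m * (c' none * C π)
      ring
    · refine Finset.sum_congr rfl fun j _ => ?_
      change _ = m * (c' (some j) * pderiv j f)
      ring
  obtain ⟨h7, h8⟩ := third hπ hC hpd hdet _ _ h6
  have hback : ∀ a, m * c' a ∈ Q → c a ∈ maximalIdeal (Localization.AtPrime Q) := by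
    intro a ha
    have h8 : algebraMap (MvPolynomial σ R) (Localization.AtPrime Q) s * c a ∈
        maximalIdeal (Localization.AtPrime Q) := by
      rw [← Algebra.smul_def, ← hc', hmem]
      exact (hQp.mem_or_mem ha).resolve_left hm
    exact (Ideal.unit_mul_mem_iff_mem _ (IsLocalization.map_units (Localization.AtPrime Q) s)).1 h8
  rintro (_ | a)
  · exact hback _ h7
  · exact hback _ (h8 a)

lemma height_le : Q.height ≤ ((Fintype.card σ + 1 : ℕ) : ℕ∞) := by
  have h1 : (Q.height : WithBot ℕ∞) ≤ ringKrullDim (MvPolynomial σ R) :=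
    Ideal.height_le_ringKrullDim_of_isPrime
  have h2 : ringKrullDim R = 1 := IsDiscreteValuationRing.ringKrullDim_eq_one R
  rw [MvPolynomial.ringKrullDim_of_isNoetherianRing, h2, Nat.card_eq_fintype_card] at h1
  have h3 : (1 : WithBot ℕ∞) + ((Fintype.card σ : ℕ) : WithBot ℕ∞) =
    (((Fintype.card σ + 1 : ℕ) : ℕ∞) : WithBot ℕ∞) := by
    push_cast
    rw [add_comm]
  rw [h3] at h1
  exact WithBot.coe_le_coe.1 h1

lemma gen (hπ : Irreducible π) (hC : (C π : MvPolynomial σ R) ∈ Q)
    (hpd : ∀ j, pderiv j f ∈ Q) (hdet : (hess f).det ∉ Q) :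
    Ideal.span (Set.range fun o : Option σ =>
      algebraMap (MvPolynomial σ R) (Localization.AtPrime Q) (fam π f o)) =
        maximalIdeal (Localization.AtPrime Q) ∧
      Q.height = ((Fintype.card σ + 1 : ℕ) : ℕ∞) := by
  obtain ⟨m, w, hw, hd⟩ := (ind hπ hC hpd hdet).extend
  rw [IsLocalization.AtPrime.ringKrullDim_eq_height Q (Localization.AtPrime Q),
    Fintype.card_option] at hd
  have h1 : Q.height = ((Fintype.card σ + 1 + m : ℕ) : ℕ∞) := by
    have : ((Q.height : ℕ∞) : WithBot ℕ∞) =
      (((Fintype.card σ + 1 + m : ℕ) : ℕ∞) : WithBot ℕ∞) := hd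
    exact WithBot.coe_injective this
  have h2 : m = 0 := by
    have h3 := height_le (R := R) (σ := σ) (Q := Q)
    rw [h1, Nat.cast_le] at h3
    omega
  subst h2
  refine ⟨?_, h1⟩
  rw [← hw]
  congr 1
  ext x
  constructor
  · rintro ⟨o, rfl⟩
    exact ⟨Sum.inl o, rfl⟩
  · rintro ⟨o | i, rfl⟩
    · exact ⟨o, rfl⟩
    · exact i.elim0

lemma first (hπ : Irreducible π) (hC : (C π : MvPolynomial σ R) ∈ Q)
    (hpd : ∀ j, pderiv j f ∈ Q) (hdet : (hess f).det ∉ Q) (x : MvPolynomial σ R) (hx : x ∈ Q) :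
    ∃ c, c ∉ Q ∧ c * x ∈ Ideal.span (insert (C π) (Set.range fun j => pderiv j f)) := by
  have h1 := (gen hπ hC hpd hdet).1
  have h2 : algebraMap (MvPolynomial σ R) (Localization.AtPrime Q) x ∈
      (Ideal.span (insert (C π) (Set.range fun j => pderiv j f))).map
        (algebraMap (MvPolynomial σ R) (Localization.AtPrime Q)) := by
    rw [← range_fam, Ideal.map_span, ← Set.range_comp]
    change _ ∈ Ideal.span (Set.range fun o : Option σ =>
      algebraMap (MvPolynomial σ R) (Localization.AtPrime Q) (fam π f o))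
    rw [h1]
    exact (IsLocalization.AtPrime.to_map_mem_maximal_iff (Localization.AtPrime Q) Q x).2 hx
  rw [IsLocalization.algebraMap_mem_map_algebraMap_iff Q.primeCompl] at h2
  obtain ⟨c, hc, h3⟩ := h2
  exact ⟨c, hc, h3⟩

lemma second (hπ : Irreducible π) (hC : (C π : MvPolynomial σ R) ∈ Q)
    (hpd : ∀ j, pderiv j f ∈ Q) (hdet : (hess f).det ∉ Q) (m : ℕ) (c : MvPolynomial σ R)
    (hc : c ∉ Q) : c * C (π ^ m) ∉ Ideal.span (Set.range fun j => pderiv j f) := by
  intro hcon
  have h1 : Q ∈ (Ideal.span (Set.range fun j => pderiv j f)).minimalPrimes := by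
    refine ⟨⟨hQp, Ideal.span_le.2 ?_⟩, ?_⟩
    · rintro _ ⟨j, rfl⟩
      exact hpd j
    · rintro P ⟨hP, hPJ⟩ hPQ x hx
      obtain ⟨c', hc', h2⟩ := first hπ hC hpd hdet x hx
      have h3 : c * C (π ^ m) ∈ P := hPJ hcon
      have h4 : (C π : MvPolynomial σ R) ^ m ∈ P := by
        rw [← map_pow]
        exact (hP.mem_or_mem h3).resolve_left fun h => hc (hPQ h)
      have h5 : (C π : MvPolynomial σ R) ∈ P := hP.mem_of_pow_mem _ h4
      have h6 : Ideal.span (insert (C π) (Set.range fun j => pderiv j f)) ≤ P := by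
        rw [Ideal.span_le]
        rintro y (rfl | ⟨j, rfl⟩)
        · exact h5
        · exact hPJ (Ideal.subset_span ⟨j, rfl⟩)
      exact (hP.mem_or_mem (h6 h2)).resolve_left fun h => hc' (hPQ h)
  have h2 := Ideal.height_le_card_of_mem_minimalPrimes_span (Set.finite_range _) h1
  rw [(gen hπ hC hpd hdet).2, Nat.cast_le] at h2
  have h3 : (Set.range fun j => pderiv j f).ncard ≤ Fintype.card σ := by
    rw [← Set.image_univ]
    refine (Set.ncard_image_le Set.finite_univ).trans ?_
    rw [Set.ncard_univ, Nat.card_eq_fintype_card]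
  omega

end main

theorem t_PAR : S_PAR := by
  intro R σ _ _ _ _ _ π hπ f Q _ hC hpd hdet
  exact ⟨fun x hx => first hπ hC hpd hdet x hx, fun m c hc => second hπ hC hpd hdet m c hc,
    fun a a₀ h => third hπ hC hpd hdet a a₀ h⟩

end Pool.Agent.K3h17.ND
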